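import Pool.Agent.Lib.BCS.Bridge
import Pool.Agent.Lib.SD.CAT
import Pool.Agent.Lib.SD.All

/-! The real Baum-Connes assembly map is onto for groups acting geometrically on proper CAT(0)
spaces with thin covers. -/

open Pool.Agent.Lib.SD Pool.Agent.Lib.BCS

theorem Pool.Agent.Results.MP_b169d2_gt.BaumConnesCatZero.result {Γ X Z : Type} [Group Γ]
    [MetricSpace X] [ProperSpace X] [MulAction Γ X] [IsIsometricSMul Γ X] [MulAction Γ Z]
    (hC : HasCNMidpoints X) (hT : HasThinCovers X) (o : X)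
    (hp : ∀ R : ℝ, {g : Γ | dist o (g • o) ≤ R}.Finite)
    (hD : ∃ D : ℝ, ∀ x : X, ∃ g : Γ, dist x (g • o) ≤ D)
    (pos : Z → X) (hZ : IsAmple Γ pos) (z : Z) (n : ℕ) : AssemblyOntoAt Γ pos z n :=
  core ⟨hC, hp, hD⟩ (CAT.main thmA thmN hC hT o hp hD).1 hZ z n
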