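import Pool.Agent.Lib.BCS.Bridge
import Pool.Agent.Lib.BCS.AdmTo

/-! The real Baum-Connes assembly map is onto for cocompact lattices of reductive groups over
local fields. -/

open Pool.Agent.Lib

theorem Pool.Agent.Results.MP_b169d2_gt.BaumConnesLattice.result {G Γ : Type} [Group G]
    [TopologicalSpace G] [Group Γ] (h : BCS.Adm G) (ρ : Γ →* G) [Finite ρ.ker]
    [DiscreteTopology ρ.range] [CompactSpace (G ⧸ ρ.range)] : BCS.AssemblyOnto Γ := by
  obtain ⟨X, _, _, _, _, o, h1, h2, h3, h4, -⟩ := BT.model_adm h.toBT ρ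
  exact BCS.assemblyOnto ⟨h1, h2, h3⟩ h4
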