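import Pool.Agent.Lib.DG.Main

namespace Pool.Agent.Results.MP_b169d2_gt.L1TraceGap

/-- A finitely generated group whose real reduced C*-algebra contains a projection whose canonical
trace is not `q * t + q'` with `q`, `q'` rational and `t` the trace of an idempotent matrix over
`l1 (G)`; `H` with its Hilbert basis `b` indexed by `G` is real `l2 (G)`. -/
theorem result : ∃ (G : Type) (_ : Group G), Group.FG G ∧
    ∃ (H : Type) (_ : NormedAddCommGroup H) (_ : InnerProductSpace ℝ H) (_ : CompleteSpace H)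
      (b : HilbertBasis G ℝ H) (p : H →L[ℝ] H),
      p ∈ closure (Submodule.span ℝ {T : H →L[ℝ] H | ∃ g : G, ∀ x : G, T (b x) = b (g * x)} :
        Set (H →L[ℝ] H)) ∧
      p * p = p ∧ IsSelfAdjoint p ∧
      ∀ (r : ℕ) (e : Fin r → Fin r → G → ℝ), (∀ i j, Summable fun g => |e i j g|) →
        (∀ i k g, ∑ j, ∑' h, e i j h * e j k (h⁻¹ * g) = e i k g) →
        ∀ q q' : ℚ, inner ℝ (b 1) (p (b 1)) ≠ q * ∑ i, e i i 1 + q' := by
  classical
  obtain ⟨G, iG, hfg, p, hp, hpp, hsa, hirr⟩ := Pool.Agent.Lib.DG.main_holds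
  have hb : ∀ x : G, (default : HilbertBasis G ℝ (lp (fun _ : G => ℝ) 2)) x = lp.single 2 x 1 :=
    fun x => ((default : HilbertBasis G ℝ (lp (fun _ : G => ℝ) 2)).repr_symm_single x).symm
  refine ⟨G, iG, hfg, lp (fun _ : G => ℝ) 2, inferInstance, inferInstance, inferInstance, default,
    p, closure_mono (Submodule.span_mono ?_) hp, hpp, hsa, fun r e h1 h2 q q' => ?_⟩
  · rintro T ⟨g, hg⟩
    refine ⟨g, fun x => ?_⟩
    rw [hb, hb]
    ext y
    rw [hg, lp.single_apply, lp.single_apply, Pi.single_apply, Pi.single_apply]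
    simp only [inv_mul_eq_iff_eq_mul]
  · rw [hb, lp.inner_single_left]
    simpa [Pool.Agent.Lib.IT.tr] using hirr r e ⟨h1, h2⟩ q q'

end Pool.Agent.Results.MP_b169d2_gt.L1TraceGap
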