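import Pool.Agent.Lib.WD.FIN
import Pool.Agent.Lib.WD.Main
import Pool.Agent.Lib.RQ.Main

namespace Pool.Agent.Results.MP_b169d2_gt.ThetaExistsNotOnto

open Pool.Agent.Lib.SZ

theorem result : ∃ (G : Type) (_ : Group G), Group.FG G ∧ ∃ ind : Cyc G → K0 (Cr G),
    (∀ (k : ℕ) (x : Sing G (8 * k + 7)) (h : x.Psc) (z : K0 (Cr G)), ind ⟨k, x, h⟩ = z ↔
      ∃ S : Spinor (Eu (8 * k + 7 + 1)) (Eu (16 ^ (k + 1))), x.IsIndex S z) ∧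
    (∀ (k : ℕ) (x y : Sing G (8 * k + 7)) (hx : x.Psc) (hy : y.Psc), Bord x y →
      ind ⟨k, x, hx⟩ = ind ⟨k, y, hy⟩) ∧
    AddSubgroup.closure (Set.range ind) ≠ ⊤ ∧
    ∀ (B : SM (Eu 8)) (f : B.M → BG Unit) (S : Spinor (Eu 8) (Eu 16)), CompactSpace B.M →
      Continuous f →
      IsIndexOf bv B f S (R := Cr Unit) Subtype.val (K0.mk (k := 1) ⟨1, one_mul 1⟩) →
      ∃ θ : RB G B → K0 (Cr G), (∀ x, θ (Quot.mk _ x) = ind x) ∧ ¬Function.Surjective θ :=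
  fin_of Pool.Agent.Lib.RQ.goal_holds Pool.Agent.Lib.RQ.stCLF Pool.Agent.Lib.WD.bord_holds
    Pool.Agent.Lib.WD.wd_holds

end Pool.Agent.Results.MP_b169d2_gt.ThetaExistsNotOnto
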